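import Pool.Agent.N139.MS.Stm

/-!
# Project MS: the group `G`
-/

set_option autoImplicit false

namespace Pool.Agent.N340.MS

open Filter Topology Matrix
open Pool.Agent.W661.RC (Mt)
open Pool.Agent.N139.MS (PD h2 S_GRP)

noncomputable section

/-! ### Permutation matrices -/

/-- the permutation matrix -/
def pm {m : ℕ} (σ : Equiv.Perm (Fin m)) : Mt m := Matrix.of fun i j => if i = σ j then 1 else 0

lemma pm_pos {m : ℕ} (σ : Equiv.Perm (Fin m)) {i j : Fin m} (h : i = σ j) : pm σ i j = 1 :=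
  if_pos h

lemma pm_neg {m : ℕ} (σ : Equiv.Perm (Fin m)) {i j : Fin m} (h : i ≠ σ j) : pm σ i j = 0 :=
  if_neg h

lemma pm_mul {m : ℕ} (σ τ : Equiv.Perm (Fin m)) : pm (σ * τ) = pm σ * pm τ := by
  ext i j
  rw [Matrix.mul_apply, Finset.sum_eq_single (τ j)]
  · rw [pm_pos τ rfl, mul_one]
    rfl
  · intro k _ hk
    rw [pm_neg τ hk, mul_zero]
  · intro h
    exact absurd (Finset.mem_univ _) h

lemma pm_one {m : ℕ} : pm (1 : Equiv.Perm (Fin m)) = 1 := by
  ext i j
  by_cases h : i = j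
  · subst h
    rw [pm_pos (1 : Equiv.Perm (Fin m)) (i := i) (j := i) rfl, Matrix.one_apply_eq]
  · rw [pm_neg _ h, Matrix.one_apply_ne h]

lemma pm_conj {m : ℕ} (σ : Equiv.Perm (Fin m)) : (pm σ)ᴴ = pm σ⁻¹ := by
  ext i j
  rw [Matrix.conjTranspose_apply]
  simp only [pm, Matrix.of_apply]
  by_cases h : j = σ i
  · have h' : i = σ⁻¹ j := by rw [h]; exact (σ.symm_apply_apply i).symm
    rw [if_pos h, if_pos h', star_one]
  · have h' : ¬ i = σ⁻¹ j := by
      intro h'
      exact h (by rw [h']; exact (σ.apply_symm_apply j).symm)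
    rw [if_neg h, if_neg h', star_zero]

lemma pm_unitary {m : ℕ} (σ : Equiv.Perm (Fin m)) : pm σ ∈ Matrix.unitaryGroup (Fin m) ℂ := by
  rw [Matrix.mem_unitaryGroup_iff]
  show pm σ * (pm σ)ᴴ = 1
  rw [pm_conj, ← pm_mul, mul_inv_cancel, pm_one]

/-- the unitary permutation matrix -/
def pu {m : ℕ} (σ : Equiv.Perm (Fin m)) : Matrix.unitaryGroup (Fin m) ℂ := ⟨pm σ, pm_unitary σ⟩

/-- the number of moved points -/
def mc {m : ℕ} (σ : Equiv.Perm (Fin m)) : ℕ := (Finset.univ.filter fun z => σ z ≠ z).card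

lemma tr_pm {m : ℕ} (σ : Equiv.Perm (Fin m)) : Matrix.trace (pm σ) = (m : ℂ) - mc σ := by
  have h1 : Matrix.trace (pm σ) = ∑ i : Fin m, if σ i = i then (1 : ℂ) else 0 := by
    unfold Matrix.trace pm
    refine Finset.sum_congr rfl fun i _ => ?_
    rw [Matrix.diag_apply, Matrix.of_apply]
    by_cases h : i = σ i
    · rw [if_pos h, if_pos h.symm]
    · rw [if_neg h, if_neg fun h' => h h'.symm]
  have h2 : ((Finset.univ.filter fun z => σ z = z).card : ℂ) +
      ((Finset.univ.filter fun z => ¬ σ z = z).card : ℂ) = m := by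
    have := Finset.card_filter_add_card_filter_not (s := (Finset.univ : Finset (Fin m)))
      (fun z => σ z = z)
    rw [Finset.card_univ, Fintype.card_fin] at this
    exact_mod_cast this
  rw [h1, Finset.sum_ite, Finset.sum_const_zero, add_zero, Finset.sum_const, nsmul_eq_mul, mul_one]
  unfold mc
  rw [← h2]
  ring

lemma mc_inv {m : ℕ} (σ : Equiv.Perm (Fin m)) : mc σ⁻¹ = mc σ := by
  unfold mc
  congr 1
  ext z
  simp only [Finset.mem_filter, Finset.mem_univ, true_and, ne_eq, not_iff_not]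
  constructor
  · intro h
    rw [Equiv.Perm.inv_eq_iff_eq] at h
    exact h.symm
  · intro h
    rw [Equiv.Perm.inv_eq_iff_eq]
    exact h.symm

lemma mc_mul {m : ℕ} (σ τ : Equiv.Perm (Fin m)) : mc (σ * τ) ≤ mc σ + mc τ := by
  unfold mc
  refine le_trans (Finset.card_le_card ?_) (Finset.card_union_le _ _)
  intro z hz
  simp only [Finset.mem_filter, Finset.mem_univ, true_and, Finset.mem_union] at hz ⊢
  by_contra hc
  push Not at hc
  apply hz
  rw [Equiv.Perm.mul_apply, hc.2, hc.1]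

lemma mc_conj {m : ℕ} (σ τ : Equiv.Perm (Fin m)) : mc (τ * σ * τ⁻¹) ≤ mc σ := by
  unfold mc
  refine Finset.card_le_card_of_injOn (fun z => τ⁻¹ z) ?_ (τ⁻¹).injective.injOn
  intro z hz
  simp only [Finset.coe_filter, Finset.mem_univ, true_and, Set.mem_ofPred_eq] at hz ⊢
  intro h
  apply hz
  rw [Equiv.Perm.mul_apply, Equiv.Perm.mul_apply, h]
  exact τ.apply_symm_apply z

lemma h2_pm {m : ℕ} (σ τ : Equiv.Perm (Fin m)) :
    h2 (pm σ - pm τ) = 2 * ((mc (σ⁻¹ * τ) : ℝ) / m) := by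
  unfold h2
  rw [Matrix.conjTranspose_sub, pm_conj, pm_conj, sub_mul, mul_sub, mul_sub, ← pm_mul, ← pm_mul,
    ← pm_mul, ← pm_mul, inv_mul_cancel, inv_mul_cancel, pm_one]
  have h3 : mc (τ⁻¹ * σ) = mc (σ⁻¹ * τ) := by
    rw [← mc_inv (τ⁻¹ * σ), _root_.mul_inv_rev, inv_inv]
  simp only [Matrix.trace_sub, tr_pm, Matrix.trace_one, Fintype.card_fin, h3]
  have e : ((m : ℂ) - ((m : ℂ) - (mc (σ⁻¹ * τ) : ℂ)) - (((m : ℂ) - (mc (σ⁻¹ * τ) : ℂ)) - (m : ℂ))) =
      ((2 * (mc (σ⁻¹ * τ) : ℝ) : ℝ) : ℂ) := by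
    push_cast
    ring
  rw [e, Complex.ofReal_re, mul_div_assoc]

/-! ### The group of sequences of permutations -/

variable (m : ℕ → ℕ)

/-- sequences of permutations -/
abbrev SS : Type := ∀ n, Equiv.Perm (Fin (m n))

/-- the proportion of the moved points -/
def mv (σ : SS m) (n : ℕ) : ℝ := (mc (σ n) : ℝ) / m n

lemma mv_nonneg (σ : SS m) (n : ℕ) : 0 ≤ mv m σ n := by unfold mv; positivity

lemma mv_mul (σ τ : SS m) (n : ℕ) : mv m (σ * τ) n ≤ mv m σ n + mv m τ n := by
  unfold mv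
  rw [← add_div]
  refine div_le_div_of_nonneg_right ?_ (Nat.cast_nonneg _)
  exact_mod_cast mc_mul (σ n) (τ n)

/-- the normal subgroup -/
def NN : Subgroup (SS m) where
  carrier := {σ | Tendsto (mv m σ) atTop (𝓝 0)}
  one_mem' := by
    have e : mv m (1 : SS m) = fun _ => 0 := by
      funext n
      unfold mv mc
      simp
    show Tendsto (mv m (1 : SS m)) atTop (𝓝 0)
    rw [e]
    exact tendsto_const_nhds
  mul_mem' := by
    intro σ τ hσ hτ
    have h : Tendsto (fun n => mv m σ n + mv m τ n) atTop (𝓝 0) := by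
      simpa using Filter.Tendsto.add hσ hτ
    exact squeeze_zero (mv_nonneg m _) (mv_mul m σ τ) h
  inv_mem' := by
    intro σ hσ
    have e : mv m σ⁻¹ = mv m σ := by
      funext n
      unfold mv
      rw [Pi.inv_apply, mc_inv]
    show Tendsto (mv m σ⁻¹) atTop (𝓝 0)
    rw [e]
    exact hσ

lemma mem_NN (σ : SS m) : σ ∈ NN m ↔ Tendsto (mv m σ) atTop (𝓝 0) := Iff.rfl

instance NN_normal : (NN m).Normal := by
  constructor
  intro σ hσ τ
  rw [mem_NN] at hσ ⊢
  refine squeeze_zero (mv_nonneg m _) (fun n => ?_) hσ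
  unfold mv
  refine div_le_div_of_nonneg_right ?_ (Nat.cast_nonneg _)
  exact_mod_cast mc_conj (σ n) (τ n)

/-- the big group -/
abbrev QQ : Type := (SS m ⧸ NN m) × Multiplicative ℤ

variable {m}
variable {K : Type} [Group K]

/-- the sequence of actions -/
def uu (u : ∀ n, K →* Equiv.Perm (Fin (m n))) : K →* SS m where
  toFun k := fun n => u n k
  map_one' := by
    funext n
    rw [map_one, Pi.one_apply]
  map_mul' k k' := by
    funext n
    rw [map_mul, Pi.mul_apply]

/-- the map of `K` -/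
def i0 (u : ∀ n, K →* Equiv.Perm (Fin (m n))) : K →* QQ m :=
  ((QuotientGroup.mk' (NN m)).comp (uu u)).prod 1

/-- the element `t` -/
def t0 (T : ∀ n, Equiv.Perm (Fin (m n))) : QQ m :=
  (QuotientGroup.mk' (NN m) T, Multiplicative.ofAdd 1)

/-- the map of the free group -/
def PsiH (u : ∀ n, K →* Equiv.Perm (Fin (m n))) (T : ∀ n, Equiv.Perm (Fin (m n))) :
    FreeGroup (Option K) →* QQ m :=
  FreeGroup.lift fun x => match x with
    | none => t0 T
    | some k => i0 u k

lemma Psi_none (u : ∀ n, K →* Equiv.Perm (Fin (m n))) (T : ∀ n, Equiv.Perm (Fin (m n))) :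
    PsiH u T (FreeGroup.of none) = t0 T := by
  unfold PsiH
  rw [FreeGroup.lift_apply_of]

lemma Psi_some (u : ∀ n, K →* Equiv.Perm (Fin (m n))) (T : ∀ n, Equiv.Perm (Fin (m n))) (k : K) :
    PsiH u T (FreeGroup.of (some k)) = i0 u k := by
  unfold PsiH
  rw [FreeGroup.lift_apply_of]

lemma i0_tw {φ : K →* K} {u : ∀ n, K →* Equiv.Perm (Fin (m n))} {T : ∀ n, Equiv.Perm (Fin (m n))}
    {k₀ : K} (h : PD φ m u T k₀) (k : K) : i0 u (φ k) = (t0 T)⁻¹ * i0 u k * t0 T := by
  refine Prod.ext ?_ ?_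
  · show QuotientGroup.mk' (NN m) (uu u (φ k)) =
      (QuotientGroup.mk' (NN m) T)⁻¹ * QuotientGroup.mk' (NN m) (uu u k) * QuotientGroup.mk' (NN m) T
    rw [← map_inv, ← map_mul, ← map_mul, QuotientGroup.mk'_eq_mk']
    refine ⟨(uu u (φ k))⁻¹ * (T⁻¹ * uu u k * T), ?_, by rw [mul_inv_cancel_left]⟩
    rw [mem_NN]
    refine (h.tw k).congr fun n => ?_
    unfold mv
    congr 2
    unfold mc
    rw [Nat.card_eq_fintype_card, Fintype.card_subtype]
    congr 1
    ext z
    simp only [Finset.mem_filter, Finset.mem_univ, true_and, ne_eq, not_iff_not, Pi.mul_apply,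
      Pi.inv_apply]
    show _ ↔ ((u n (φ k))⁻¹ * ((T n)⁻¹ * u n k * T n)) z = z
    rw [Equiv.Perm.mul_apply (u n (φ k))⁻¹, Equiv.Perm.inv_eq_iff_eq]
  · show (1 : Multiplicative ℤ) = (Multiplicative.ofAdd 1)⁻¹ * 1 * Multiplicative.ofAdd 1
    rw [mul_one, inv_mul_cancel]

theorem t_GRP : S_GRP := by
  intro K _ _ φ m u T k₀ hPD
  set Ψ := PsiH u T with hΨ
  have hi : ∀ k, i0 u k ∈ Ψ.range := fun k => ⟨FreeGroup.of (some k), Psi_some u T k⟩
  have ht : t0 T ∈ Ψ.range := ⟨FreeGroup.of none, Psi_none u T⟩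
  let ι : K →* Ψ.range := (i0 u).codRestrict Ψ.range hi
  let t : Ψ.range := ⟨t0 T, ht⟩
  let χ : Ψ.range →* Multiplicative ℤ := (MonoidHom.snd _ _).comp Ψ.range.subtype
  let rp : Ψ.range → SS m := fun g => Quotient.out (g : QQ m).1
  have hrp : ∀ g : Ψ.range, QuotientGroup.mk' (NN m) (rp g) = (g : QQ m).1 := fun g =>
    Quotient.out_eq _
  have hcount : Countable Ψ.range :=
    Function.Surjective.countable (MonoidHom.rangeRestrict_surjective Ψ)
  refine ⟨Ψ.range, inferInstance, hcount, ι, t, χ, ?_, ?_, ?_, ?_, fun n g => pu (rp g n), ?_, ?_⟩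
  · intro k
    apply Subtype.ext
    exact i0_tw hPD k
  · rw [eq_top_iff]
    rintro x -
    obtain ⟨w, rfl⟩ := MonoidHom.rangeRestrict_surjective Ψ x
    induction w using FreeGroup.induction_on with
    | C1 => rw [map_one]; exact Subgroup.one_mem _
    | of x =>
      rcases x with _ | k
      · have e : Ψ.rangeRestrict (FreeGroup.of none) = t := Subtype.ext (Psi_none u T)
        rw [e]
        exact Subgroup.subset_closure (Or.inr rfl)
      · have e : Ψ.rangeRestrict (FreeGroup.of (some k)) = ι k := Subtype.ext (Psi_some u T k)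
        rw [e]
        exact Subgroup.subset_closure (Or.inl ⟨k, rfl⟩)
    | inv_of x hx => rw [map_inv]; exact Subgroup.inv_mem _ hx
    | mul x y hx hy => rw [map_mul]; exact Subgroup.mul_mem _ hx hy
  · intro k
    rfl
  · rfl
  · intro g h
    have h1 : (rp (g * h))⁻¹ * (rp g * rp h) ∈ NN m := by
      rw [← QuotientGroup.eq]
      show QuotientGroup.mk' (NN m) (rp (g * h)) = QuotientGroup.mk' (NN m) (rp g * rp h)
      rw [map_mul, hrp, hrp, hrp]
      rfl
    rw [mem_NN] at h1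
    have h3 := h1.const_mul 2
    rw [mul_zero] at h3
    refine h3.congr fun n => ?_
    show _ = h2 (pm (rp (g * h) n) - pm (rp g n) * pm (rp h n))
    rw [← pm_mul, h2_pm]
    rfl
  · intro hT
    have h1 : rp (ι k₀) ∈ NN m := by
      rw [mem_NN]
      have h3 := hT.const_mul (1 / 2)
      rw [mul_zero] at h3
      refine h3.congr fun n => ?_
      show 1 / 2 * h2 (pm (rp (ι k₀) n) - 1) = _
      rw [← pm_one, h2_pm, mul_one, mc_inv]
      unfold mv
      ring
    have h3 : uu u k₀ ∈ NN m := by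
      rw [← QuotientGroup.eq_one_iff] at h1 ⊢
      have h4 : ((uu u k₀ : SS m) : SS m ⧸ NN m) = ((rp (ι k₀) : SS m) : SS m ⧸ NN m) :=
        (hrp (ι k₀)).symm
      rw [h4, h1]
    rw [mem_NN] at h3
    have h4 : ∀ n, (1 / 2 : ℝ) ≤ mv m (uu u k₀) n := by
      intro n
      have hm : (0 : ℝ) < m n := by exact_mod_cast hPD.pos n
      have h5 := hPD.nt n
      rw [Nat.card_eq_fintype_card, Fintype.card_subtype] at h5
      have h6 := Finset.card_filter_add_card_filter_not (s := (Finset.univ : Finset (Fin (m n))))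
        (fun z => u n k₀ z = z)
      rw [Finset.card_univ, Fintype.card_fin] at h6
      unfold mv
      rw [le_div_iff₀ hm]
      have h7 : m n ≤ 2 * mc (uu u k₀ n) := by
        show m n ≤ 2 * (Finset.univ.filter fun z => ¬ u n k₀ z = z).card
        omega
      have h8 : (m n : ℝ) ≤ 2 * mc (uu u k₀ n) := by exact_mod_cast h7
      linarith
    have h5 := ge_of_tendsto' h3 h4
    norm_num at h5

end

end Pool.Agent.N340.MS
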